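import Pool.Agent.helper47.TFQ.Spec

set_option autoImplicit false

namespace Pool.Agent.TFQ

open Polynomial Pool.Agent.GJ Pool.Agent.TK
open Pool.Agent.FJ (VT Om chiO IsFrobO rf rs)
open Pool.Agent.TD (zK)

noncomputable section

theorem QD7 (hKD1 : TK.KD1_stmt) : QD7_stmt := by
  intro F _ _ _ K _ _ e l α n _ μ a _ β Φ hl2 hla hα hβ hΦ h0
  have hgood : Good K l μ (bQ e a) := inferInstance
  have hp3 : 3 ≤ cq F - 1 := by
    rw [← hla]
    calc 3 ≤ l := hl2
      _ = l * 1 := (mul_one l).symm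
      _ ≤ l * α := Nat.mul_le_mul_left l hα
  have hpK : ((cq F - 1 : ℕ) : K) = -1 := by
    have h1 : ((cq F : ℕ) : K) = 0 := by
      have h2 : ((cq F : ℕ) : F) = 0 := FiniteField.cast_card_eq_zero F
      rw [← map_natCast e, h2, map_zero]
    rw [Nat.cast_sub (by omega), h1]
    simp
  have hpK0 : ((cq F - 1 : ℕ) : K) ≠ 0 := by
    rw [hpK]
    exact neg_ne_zero.2 one_ne_zero
  -- the roots in `K`
  have hroot : ∀ j, ∃ c : K, c ^ (cq F - 1) = bQ e a 0 - bQ e a j := fun j =>
    IsAlgClosed.exists_pow_nat_eq _ (by omega)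
  choose c hc using hroot
  have hc0 : ∀ j, j ≠ 0 → c j ≠ 0 := by
    intro j hj h
    have h1 := hc j
    rw [h, zero_pow (by omega)] at h1
    exact hj (hgood.inj (sub_eq_zero.1 h1.symm)).symm
  -- the power series
  have hser : ∀ j, ∃ t : PowerSeries K, t ^ (cq F - 1) =
      PowerSeries.C (bQ e a 0 - bQ e a j) + PowerSeries.X ^ (cq F - 1) ∧
      (j ≠ 0 → t ≠ 0 ∧ PowerSeries.coeff 1 t = 0) ∧ (j = 0 → t = PowerSeries.X) := by
    intro j
    by_cases hj : j = 0
    · refine ⟨PowerSeries.X, ?_, fun h => absurd hj h, fun _ => rfl⟩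
      rw [hj, sub_self, map_zero, zero_add]
    · obtain ⟨t, ht1, ht2⟩ := hKD1 K (cq F - 1)
        (PowerSeries.C (bQ e a 0 - bQ e a j) + PowerSeries.X ^ (cq F - 1)) (c j) hpK0 (hc0 j hj) (by
          simp only [map_add, map_pow, PowerSeries.constantCoeff_C, PowerSeries.constantCoeff_X]
          rw [zero_pow (by omega), add_zero, hc])
      refine ⟨t, ht1, fun _ => ⟨?_, ?_⟩, fun h => absurd h hj⟩
      · rintro rfl
        exact hc0 j hj (by rw [← ht2, map_zero])
      · have h1 := congrArg (PowerSeries.coeff 1) ht1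
        rw [PowerSeries.coeff_one_pow, map_add, PowerSeries.coeff_C, PowerSeries.coeff_X_pow,
          if_neg one_ne_zero, if_neg (by omega), zero_add, ht2] at h1
        rcases mul_eq_zero.1 h1 with h | h
        · rcases mul_eq_zero.1 h with h | h
          · exact absurd h hpK0
          · exact h
        · exact absurd h (pow_ne_zero _ (hc0 j hj))
  choose t ht1 ht2 ht3 using hser
  have ht0 : ∀ j, t j ≠ 0 := by
    intro j
    by_cases hj : j = 0
    · rw [ht3 j hj]; exact PowerSeries.X_ne_zero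
    · exact (ht2 j hj).1
  -- the embedding in Laurent series
  let ι : PowerSeries K →+* LaurentSeries K := algebraMap (PowerSeries K) (LaurentSeries K)
  have hι : Function.Injective ι := IsFractionRing.injective (PowerSeries K) (LaurentSeries K)
  let φ : K →+* LaurentSeries K := ι.comp PowerSeries.C
  let u : LaurentSeries K := ι (PowerSeries.C (bQ e a 0) + PowerSeries.X ^ (cq F - 1))
  have hu : ∀ j, u - φ (bQ e a j) = ι (t j) ^ (cq F - 1) := by
    intro j
    show ι _ - ι _ = _
    rw [← map_sub, ← map_pow, ht1 j, map_sub (PowerSeries.C : K →+* PowerSeries K)]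
    congr 1
    ring
  let v : LaurentSeries K := ∏ j, ι (t j) ^ (μ j * α)
  have hfu : eval₂ φ u (fp K μ (bQ e a)) = ∏ j, (u - φ (bQ e a j)) ^ μ j :=
    CR.eval₂_fp φ (fun j => φ (bQ e a j)) (fun _ => rfl) u
  have hv : v ^ l = eval₂ φ u (fp K μ (bQ e a)) := by
    rw [hfu, ← Finset.prod_pow]
    refine Finset.prod_congr rfl fun j _ => ?_
    rw [hu, ← pow_mul, ← pow_mul, ← hla]
    congr 1
    ring
  have hunit : IsUnit (eval₂ φ u (fp K μ (bQ e a))) := by
    rw [hfu, isUnit_iff_ne_zero, Finset.prod_ne_zero_iff]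
    intro j _
    rw [hu]
    exact pow_ne_zero _ (pow_ne_zero _ ((map_ne_zero_iff ι hι).2 (ht0 j)))
  let E : CR K l μ (bQ e a) →+* LaurentSeries K := CR.lift φ u v hv hunit
  have hE := hΦ (LaurentSeries K) E (fun j => ι (t j)) (fun j => by
    rw [map_sub, CR.lift_x, CR.lift_C, hu]) (CR.lift_y _ _ _ _ _)
  rw [h0, map_zero] at hE
  have hE' := hE.symm
  rw [Finset.prod_eq_zero_iff] at hE'
  obtain ⟨w, -, hw⟩ := hE'
  have h1 : ι (∑ j, PowerSeries.C (β j * e (w j : F)) * t j - 1) = 0 := by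
    rw [map_sub, map_sum, map_one, ← hw]
    congr 1
    refine Finset.sum_congr rfl fun j _ => ?_
    rw [map_mul, CR.lift_C]
    rfl
  rw [map_eq_zero_iff ι hι] at h1
  have h2 := congrArg (PowerSeries.coeff 1) h1
  rw [map_sub, map_sum, map_zero, PowerSeries.coeff_one, if_neg one_ne_zero, sub_zero,
    Finset.sum_eq_single 0 (fun j _ hj => by
      rw [PowerSeries.coeff_C_mul, (ht2 j hj).2, mul_zero]) (by simp),
    ht3 0 rfl, PowerSeries.coeff_C_mul, PowerSeries.coeff_one_X, mul_one] at h2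
  rcases mul_eq_zero.1 h2 with h | h
  · exact hβ h
  · exact (w 0).ne_zero ((map_eq_zero e).1 h)

end

end Pool.Agent.TFQ
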